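import Mathlib

namespace Pool.Agent.H.MP_ee21b2_co
open Finset

variable {ι : Type*} [Fintype ι] [DecidableEq ι]

lemma top_sub (s : Finset ι) (a : ℕ) (h w : ι → ℝ) (h0 : ∀ y, 0 ≤ h y) (h1 : ∀ y, h y ≤ 1)
    (hs : ∑ y ∈ s, h y ≤ a) (w0 : ∀ y, 0 ≤ w y) :
    ∃ S ⊆ s, S.card ≤ a ∧ ∑ y ∈ s, h y * w y ≤ ∑ y ∈ S, w y := by
  by_cases hc : s.card ≤ a
  · exact ⟨s, subset_rfl, hc, sum_le_sum fun y _ => by nlinarith [h1 y, w0 y]⟩
  obtain ⟨S, hS, hmax⟩ := exists_max_image (powersetCard a s) (fun S => ∑ y ∈ S, w y)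
    (powersetCard_nonempty.2 (by omega))
  obtain ⟨hSs, hSc⟩ := mem_powersetCard.1 hS
  have hne : (s \ S).Nonempty := by
    rw [← card_pos, card_sdiff_of_subset hSs]; omega
  obtain ⟨z, hz, hzmax⟩ := exists_max_image (s \ S) w hne
  obtain ⟨hz1, hz2⟩ := mem_sdiff.1 hz
  have hlow : ∀ y ∈ S, w z ≤ w y := by
    intro y hy
    have hz3 : z ∉ S.erase y := fun h => hz2 (mem_of_mem_erase h)
    have := hmax (insert z (S.erase y)) (mem_powersetCard.2 ⟨insert_subset hz1
      ((erase_subset _ _).trans hSs), by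
        rw [card_insert_of_notMem hz3, card_erase_of_mem hy]
        have := card_pos.2 ⟨y, hy⟩
        omega⟩)
    simp only [sum_insert hz3] at this
    have e := add_sum_erase S w hy
    linarith
  refine ⟨S, hSs, hSc.le, ?_⟩
  rw [← sum_sdiff hSs] at hs ⊢
  have e1 : ∑ y ∈ s \ S, h y * w y ≤ ∑ y ∈ s \ S, h y * w z :=
    sum_le_sum fun y hy => mul_le_mul_of_nonneg_left (hzmax y hy) (h0 y)
  have e2 : ∑ y ∈ S, h y * w y ≤ ∑ y ∈ S, (w y - w z + h y * w z) :=
    sum_le_sum fun y hy => by nlinarith [hlow y hy, h1 y]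
  rw [sum_add_distrib, sum_sub_distrib, sum_const, hSc, nsmul_eq_mul, ← sum_mul] at e2
  rw [← sum_mul] at e1
  nlinarith [w0 z]

lemma split (G : ι → ι → ℝ) (x : ι) (hx : G x x = 0) : ∑ u, ∑ v, G u v * G v u =
    ∑ u ∈ univ.erase x, ∑ v ∈ univ.erase x, G u v * G v u +
      2 * ∑ v ∈ univ.erase x, G x v * G v x := by
  rw [← add_sum_erase _ _ (mem_univ x), ← add_sum_erase _ _ (mem_univ x), hx]
  rw [sum_congr rfl fun u _ => (add_sum_erase _ (fun v => G u v * G v u) (mem_univ x)).symm,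
    sum_add_distrib, sum_congr rfl fun u _ => mul_comm (G u x) (G x u)]
  ring

def Good (a : ι → ℕ) (H : ι → ι → ℝ) : Prop :=
  (∀ u v, 0 ≤ H u v) ∧ (∀ u v, H u v ≤ 1) ∧ (∀ u, H u u = 0) ∧ ∀ u, ∑ v, H u v ≤ a u

lemma round (a : ι → ℕ) (H : ι → ι → ℝ) (hH : Good a H) (s : Finset ι) :
    ∃ G, Good a G ∧ (∀ u ∈ s, ∀ v, G u v = 0 ∨ G u v = 1) ∧
      ∑ u, ∑ v, H u v * H v u ≤ ∑ u, ∑ v, G u v * G v u := by
  induction s using Finset.induction_on with
  | empty => exact ⟨H, hH, by simp, le_rfl⟩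
  | insert x s hx ih =>
    obtain ⟨G, ⟨g0, g1, g2, g3⟩, h01, hle⟩ := ih
    obtain ⟨S, hS, hSc, hsum⟩ := top_sub (univ.erase x) (a x) (G x) (fun v => G v x) (g0 x) (g1 x)
      ((sum_le_sum_of_subset_of_nonneg (erase_subset _ _) fun v _ _ => g0 x v).trans (g3 x))
      fun v => g0 v x
    have hxS : x ∉ S := fun h => by simpa using hS h
    set G' : ι → ι → ℝ := fun u v => if u = x then (if v ∈ S then 1 else 0) else G u v with hG'
    have d : G' x x = 0 := by simp [hG', hxS]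
    refine ⟨G', ⟨fun u v => ?_, fun u v => ?_, fun u => ?_, fun u => ?_⟩, fun u hu v => ?_, ?_⟩
    · simp only [hG']; split_ifs <;> simp [g0]
    · simp only [hG']; split_ifs <;> simp [g1]
    · by_cases h : u = x
      · rw [h, d]
      · simp [hG', h, g2]
    · by_cases h : u = x
      · subst h
        simpa [hG'] using hSc
      · simpa [hG', h] using g3 u
    · by_cases h : u = x
      · simp only [hG', h, if_true]; split_ifs <;> simp
      · simpa [hG', h] using h01 u ((mem_insert.1 hu).resolve_left h) v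
    · refine hle.trans ?_
      rw [split G x (g2 x), split G' x d]
      have e1 : ∑ u ∈ univ.erase x, ∑ v ∈ univ.erase x, G' u v * G' v u =
          ∑ u ∈ univ.erase x, ∑ v ∈ univ.erase x, G u v * G v u :=
        sum_congr rfl fun u hu => sum_congr rfl fun v hv => by
          simp [hG', ne_of_mem_erase hu, ne_of_mem_erase hv]
      have e2 : ∑ v ∈ univ.erase x, G' x v * G' v x = ∑ v ∈ S, G v x := by
        rw [← sum_subset hS (fun v _ hv => by simp [hG', hv])]
        exact sum_congr rfl fun v hv => by simp [hG', hv, ne_of_mem_erase (hS hv)]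
      rw [e1, e2]
      linarith

lemma core (a : ι → ℕ) (H : ι → ι → ℝ) (hH : Good a H) (ho : Odd (∑ u, a u)) :
    ∑ u, ∑ v, H u v * H v u ≤ (∑ u, a u : ℕ) - 1 := by
  classical
  obtain ⟨G, ⟨g0, g1, g2, g3⟩, h01, hle⟩ := round a H hH univ
  refine hle.trans ?_
  set T : Finset (ι × ι) := univ.filter fun p => G p.1 p.2 = 1 ∧ G p.2 p.1 = 1 with hT
  have e : ∑ u, ∑ v, G u v * G v u = T.card := by
    rw [← Fintype.sum_prod_type', hT, ← sum_boole]
    refine sum_congr rfl fun p _ => ?_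
    rcases h01 p.1 (mem_univ _) p.2 with h | h <;> rcases h01 p.2 (mem_univ _) p.1 with h' | h' <;>
      simp [h, h']
  have ev : Even T.card := by
    rw [← ZMod.natCast_eq_zero_iff_even, card_eq_sum_ones]
    push_cast
    refine sum_involution (fun p _ => p.swap) (fun _ _ => by decide) ?_ ?_ (fun _ _ => rfl)
    · rintro ⟨u, v⟩ hp - h
      have h1 : v = u := congrArg Prod.fst h
      subst h1
      have := (mem_filter.1 hp).2.1
      rw [g2] at this
      norm_num at this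
    · intro p hp
      exact mem_filter.2 ⟨mem_univ _, (mem_filter.1 hp).2.symm⟩
  have le : (T.card : ℝ) ≤ (∑ u, a u : ℕ) := by
    rw [← e]
    push_cast
    exact sum_le_sum fun u _ => (sum_le_sum fun v _ => by nlinarith [g0 u v, g1 v u]).trans (g3 u)
  have le' : T.card ≤ ∑ u, a u := by exact_mod_cast le
  have : T.card + 1 ≤ ∑ u, a u := by
    obtain ⟨i, hi⟩ := ev
    obtain ⟨j, hj⟩ := ho
    omega
  rw [e, le_sub_iff_add_le]
  exact_mod_cast this

end Pool.Agent.H.MP_ee21b2_co
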